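import Mathlib

open Cardinal Set

namespace Pool.Agent.Results.MP_23f360_gt.SquareOnly

/-- A topological abelian group is d-independent if it is nontrivial and each subgroup of
cardinality less than the continuum meets some countable dense subgroup trivially. -/
def DIndependent (G : Type) [AddCommGroup G] [TopologicalSpace G] : Prop :=
  Nontrivial G ∧ ∀ S : AddSubgroup G, #S < 𝔠 →
    ∃ D : AddSubgroup G, (D : Set G).Countable ∧ Dense (D : Set G) ∧ S ⊓ D = ⊥

/-- Sequences in the two element field. -/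
abbrev X : Type := ℕ → ZMod 2

variable (I : Type)

/-- The values of a character on a basis (blocks of length `ℕ`). -/
abbrev Y : Type := {p : X × (I × Fin 3 → X) // (Set.range p.2).Countable}

/-- The underlying group. -/
abbrev G : Type := (ℕ →₀ ZMod 2) × (((I × Fin 3) × ℕ) →₀ ZMod 2)

variable {I}

/-- The character given by values on the basis. -/
noncomputable def chi (p : X × (I × Fin 3 → X)) : G I →ₗ[ZMod 2] ZMod 2 :=
  (Finsupp.linearCombination (ZMod 2) p.1).coprod
    (Finsupp.linearCombination (ZMod 2) (fun b : (I × Fin 3) × ℕ => p.2 b.1 b.2))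

theorem chi_apply (p : X × (I × Fin 3 → X)) (g : G I) :
    chi p g = Finsupp.linearCombination (ZMod 2) p.1 g.1 +
      Finsupp.linearCombination (ZMod 2) (fun b : (I × Fin 3) × ℕ => p.2 b.1 b.2) g.2 := rfl

/-! ### Cardinality of spans -/

theorem mk_finsupp_lt {s : Type} (hs : #s < 𝔠) : #(s →₀ ZMod 2) < 𝔠 := by
  cases finite_or_infinite s with
  | inl h =>
    have : Finite (s →₀ ZMod 2) := Finite.of_injective (fun f : s →₀ ZMod 2 => (f : s → ZMod 2))
      DFunLike.coe_injective
    exact (Cardinal.lt_aleph0_of_finite _).trans aleph0_lt_continuum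
  | inr h =>
    rw [Cardinal.mk_finsupp_of_infinite]
    refine max_lt hs ?_
    exact (Cardinal.lt_aleph0_of_finite _).trans aleph0_lt_continuum

theorem mk_X : #X = 𝔠 := by
  simp [X]

theorem countable_range_const' : (Set.range (fun _ : I × Fin 3 => (0 : X))).Countable := by
  refine Set.Countable.mono (s₂ := {0}) ?_ (Set.countable_singleton _)
  rintro _ ⟨j, rfl⟩
  rfl

theorem span_ne_top {s : Set X} (hs : #s < 𝔠) : Submodule.span (ZMod 2) s ≠ ⊤ := by
  intro h
  have hsurj : Function.Surjective (Finsupp.linearCombination (ZMod 2) (Subtype.val : s → X)) := by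
    rw [← LinearMap.range_eq_top, Finsupp.range_linearCombination, Subtype.range_coe, h]
  have h1 := Cardinal.mk_le_of_surjective hsurj
  rw [mk_X] at h1
  exact absurd (mk_finsupp_lt hs) (not_lt.mpr h1)

/-! ### The recursion -/

section rec

variable [LinearOrder I] [WellFoundedLT I]

/-- Vectors used before stage `η`. -/
def prevSet (f : I → Y I) (η : I) : Set X :=
  {v | ∃ j : I, j < η ∧ (v = (f j).1.1 ∨ v ∈ Set.range (f j).1.2)}

/-- Vectors used before stage `η`, version for the recursion. -/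
def prevSet' (η : I) (f : ∀ j : I, j < η → Y I) : Set X :=
  {v | ∃ (j : I) (h : j < η), (v = (f j h).1.1 ∨ v ∈ Set.range (f j h).1.2)}

omit [WellFoundedLT I] in
theorem mk_prevSet' (hlt : ∀ i : I, #(Iio i) < 𝔠) (η : I) (f : ∀ j : I, j < η → Y I) :
    #(prevSet' η f) < 𝔠 := by
  have hsub : prevSet' η f ⊆ ⋃ j : Iio η, ({(f j.1 j.2).1.1} ∪ Set.range (f j.1 j.2).1.2) := by
    rintro v ⟨j, h, hv⟩
    rw [mem_iUnion]
    refine ⟨⟨j, h⟩, ?_⟩
    rcases hv with hv | hv
    · left; exact hv
    · right; exact hv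
  refine (Cardinal.mk_le_mk_of_subset hsub).trans_lt ?_
  refine (Cardinal.mk_iUnion_le _).trans_lt ?_
  refine Cardinal.mul_lt_of_lt aleph0_lt_continuum.le (hlt η) ?_
  refine lt_of_le_of_lt (ciSup_le' ?_) aleph0_lt_continuum
  intro j
  rw [Cardinal.le_aleph0_iff_set_countable]
  exact (Set.countable_singleton _).union (f j.1 j.2).2

theorem exists_seq (hlt : ∀ i : I, #(Iio i) < 𝔠) (R : I → Set (Y I))
    (hR : ∀ η (W : Submodule (ZMod 2) X), W ≠ ⊤ → ∃ p ∈ R η, p.1.1 ∉ W) :
    ∃ f : I → Y I, ∀ η, f η ∈ R η ∧ (f η).1.1 ∉ Submodule.span (ZMod 2) (prevSet f η) := by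
  classical
  have hW : ∀ η (ih : ∀ j : I, j < η → Y I), Submodule.span (ZMod 2) (prevSet' η ih) ≠ ⊤ :=
    fun η ih => span_ne_top (mk_prevSet' hlt η ih)
  have wf : WellFounded (fun a b : I => a < b) := wellFounded_lt
  let F : ∀ η : I, (∀ j : I, j < η → Y I) → Y I := fun η ih =>
    Classical.choose (hR η _ (hW η ih))
  have hF : ∀ η ih, F η ih ∈ R η ∧ (F η ih).1.1 ∉ Submodule.span (ZMod 2) (prevSet' η ih) :=
    fun η ih => Classical.choose_spec (hR η _ (hW η ih))
  refine ⟨fun η => wf.fix F η, fun η => ?_⟩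
  have h := hF η (fun j _ => wf.fix F j)
  have e : wf.fix F η = F η (fun j _ => wf.fix F j) := WellFounded.fix_eq wf F η
  have e2 : prevSet' η (fun j _ => wf.fix F j) = prevSet (fun η => wf.fix F η) η := by
    ext v
    constructor
    · rintro ⟨j, h, hv⟩; exact ⟨j, h, hv⟩
    · rintro ⟨j, h, hv⟩; exact ⟨j, h, hv⟩
  rw [e2] at h
  rw [← e] at h
  exact h

end rec

/-! ### Tasks -/

/-- task for a point. -/
def RPoint (g : G I) : Set (Y I) := {p | g ≠ 0 → chi p.1 g ≠ 0}

/-- task for a sequence. -/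
def RSeq (s : ℕ → G I) : Set (Y I) :=
  {p | (∀ g ∈ Submodule.span (ZMod 2) (Set.range s), g.2 = 0 → g = 0) → ∀ n, chi p.1 (s n) = 0}

theorem zmod2_cases (c : ZMod 2) : c = 0 ∨ c = 1 := by
  revert c; decide

theorem exists_point (g : G I) (W : Submodule (ZMod 2) X) (hW : W ≠ ⊤) :
    ∃ p ∈ RPoint g, p.1.1 ∉ W := by
  classical
  obtain ⟨v, hv⟩ : ∃ v : X, v ∉ W := by
    by_contra hcon
    push Not at hcon
    exact hW (Submodule.eq_top_iff'.mpr hcon)
  by_cases h2 : g.2 = 0
  · by_cases h1 : g.1 = 0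
    · refine ⟨⟨(v, fun _ => 0), ?_⟩, ?_, hv⟩
      · exact countable_range_const' 
      · intro hg
        exact absurd (Prod.ext h1 h2) hg
    · -- find x outside W with x g.1 ≠ 0
      obtain ⟨n, hn⟩ : ∃ n, g.1 n ≠ 0 := by
        by_contra hcon
        push Not at hcon
        exact h1 (Finsupp.ext hcon)
      let L : X → ZMod 2 := fun x => Finsupp.linearCombination (ZMod 2) x g.1
      have hLadd : ∀ x y, L (x + y) = L x + L y := by
        intro x y
        simp only [L, Finsupp.linearCombination_apply, Finsupp.sum, Pi.add_apply, smul_add,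
          Finset.sum_add_distrib]
      have hu : L (Pi.single n 1) ≠ 0 := by
        simp only [L, Finsupp.linearCombination_apply, Finsupp.sum]
        rw [Finset.sum_eq_single n]
        · simpa using hn
        · intro b _ hb
          rw [Pi.single_eq_of_ne hb, smul_zero]
        · intro h
          simp at h
          simp [h]
      have hx : ∃ x : X, x ∉ W ∧ L x ≠ 0 := by
        by_cases hLv : L v = 0
        · by_cases huW : Pi.single n 1 ∈ W
          · refine ⟨Pi.single n 1 + v, ?_, ?_⟩
            · intro h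
              exact hv ((Submodule.add_mem_iff_right W huW).mp h)
            · rw [hLadd, hLv, add_zero]; exact hu
          · exact ⟨_, huW, hu⟩
        · exact ⟨v, hv, hLv⟩
      obtain ⟨x, hxW, hx⟩ := hx
      refine ⟨⟨(x, fun _ => 0), countable_range_const'⟩, ?_, hxW⟩
      intro _
      show chi (x, fun _ => 0) g ≠ 0
      rw [chi_apply, h2, map_zero, add_zero]
      exact hx
  · obtain ⟨b, hb⟩ : ∃ b, g.2 b ≠ 0 := by
      by_contra hcon
      push Not at hcon
      exact h2 (Finsupp.ext hcon)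
    have hb1 : g.2 b = 1 := (zmod2_cases _).resolve_left hb
    let c : ZMod 2 := 1 + Finsupp.linearCombination (ZMod 2) v g.1
    let y : I × Fin 3 → X := Pi.single b.1 (Pi.single b.2 c)
    have hy : (Set.range y).Countable := by
      refine Set.Countable.mono (s₂ := {0, Pi.single b.2 c}) ?_ (Set.toFinite _).countable
      rintro _ ⟨j, rfl⟩
      by_cases hj : j = b.1
      · subst hj; right; simp [y]
      · left; simp [y, hj]
    refine ⟨⟨(v, y), hy⟩, ?_, hv⟩
    intro _
    show chi (v, y) g ≠ 0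
    rw [chi_apply]
    have h3 : Finsupp.linearCombination (ZMod 2)
        (fun b : (I × Fin 3) × ℕ => y b.1 b.2) g.2 = c := by
      rw [Finsupp.linearCombination_apply, Finsupp.sum]
      rw [Finset.sum_eq_single b]
      · simp [y, hb1]
      · intro b' _ hb'
        have : y b'.1 b'.2 = 0 := by
          by_cases h1 : b'.1 = b.1
          · have h2 : b'.2 ≠ b.2 := fun h2 => hb' (Prod.ext h1 h2)
            simp [y, h1, h2]
          · simp [y, h1]
        rw [this, smul_zero]
      · intro h
        simp at h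
        exact absurd h hb
    show Finsupp.linearCombination (ZMod 2) v g.1 + _ ≠ 0
    rw [h3]
    simp only [c]
    rcases zmod2_cases (Finsupp.linearCombination (ZMod 2) v g.1) with h | h
    · rw [h]; decide
    · rw [h]; decide

theorem exists_seqTask (s : ℕ → G I) (W : Submodule (ZMod 2) X) (hW : W ≠ ⊤) :
    ∃ p ∈ RSeq s, p.1.1 ∉ W := by
  classical
  obtain ⟨v, hv⟩ : ∃ v : X, v ∉ W := by
    by_contra hcon
    push Not at hcon
    exact hW (Submodule.eq_top_iff'.mpr hcon)
  by_cases hD : ∀ g ∈ Submodule.span (ZMod 2) (Set.range s), g.2 = 0 → g = 0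
  · -- functional
    let D := Submodule.span (ZMod 2) (Set.range s)
    let π : D →ₗ[ZMod 2] (((I × Fin 3) × ℕ) →₀ ZMod 2) :=
      (LinearMap.snd (ZMod 2) _ _).comp D.subtype
    have hker : LinearMap.ker π = ⊥ := by
      rw [LinearMap.ker_eq_bot']
      intro m hm
      have := hD m.1 m.2 hm
      exact Subtype.ext this
    obtain ⟨ρ, hρ⟩ := π.exists_leftInverse_of_injective hker
    let φ : (((I × Fin 3) × ℕ) →₀ ZMod 2) →ₗ[ZMod 2] ZMod 2 :=
      (Finsupp.linearCombination (ZMod 2) v).comp
        ((LinearMap.fst (ZMod 2) _ _).comp (D.subtype.comp ρ))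
    have hφ : ∀ g ∈ D, φ g.2 = Finsupp.linearCombination (ZMod 2) v g.1 := by
      intro g hg
      have h1 : ρ (π ⟨g, hg⟩) = ⟨g, hg⟩ := by
        have := LinearMap.congr_fun hρ ⟨g, hg⟩
        simpa using this
      have h2 : π ⟨g, hg⟩ = g.2 := rfl
      rw [h2] at h1
      show Finsupp.linearCombination (ZMod 2) v ((ρ g.2 : D) : G I).1 = _
      rw [h1]
    let E : Set ((I × Fin 3) × ℕ) := {b | ∃ n, (s n).2 b ≠ 0}
    have hE : E.Countable := by
      have : E ⊆ ⋃ n, (((s n).2.support : Finset _) : Set ((I × Fin 3) × ℕ)) := by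
        rintro b ⟨n, hn⟩
        rw [mem_iUnion]
        exact ⟨n, by simpa using hn⟩
      exact (Set.countable_iUnion (fun n => (Finset.countable_toSet _))).mono this
    let y : I × Fin 3 → X := fun j n => if (j, n) ∈ E then φ (Finsupp.single (j, n) 1) else 0
    have hy : (Set.range y).Countable := by
      have hsub : Set.range y ⊆ {0} ∪ y '' (Prod.fst '' E) := by
        rintro _ ⟨j, rfl⟩
        by_cases hj : j ∈ Prod.fst '' E
        · right; exact ⟨j, hj, rfl⟩
        · left
          show y j = 0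
          funext n
          have : (j, n) ∉ E := fun h => hj ⟨(j, n), h, rfl⟩
          simp [y, this]
      exact ((Set.countable_singleton _).union ((hE.image _).image _)).mono hsub
    refine ⟨⟨(v, y), hy⟩, ?_, hv⟩
    intro _ n
    show chi (v, y) (s n) = 0
    rw [chi_apply]
    have hsn : s n ∈ D := Submodule.subset_span ⟨n, rfl⟩
    have h3 : Finsupp.linearCombination (ZMod 2)
        (fun b : (I × Fin 3) × ℕ => y b.1 b.2) (s n).2 = φ (s n).2 := by
      conv_rhs => rw [← Finsupp.sum_single (s n).2]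
      rw [Finsupp.linearCombination_apply, Finsupp.sum, Finsupp.sum, map_sum]
      refine Finset.sum_congr rfl ?_
      intro b hb
      have hbE : b ∈ E := ⟨n, by simpa using hb⟩
      have : y b.1 b.2 = φ (Finsupp.single b 1) := by
        simp [y, hbE]
      show (s n).2 b • y b.1 b.2 = _
      rw [this, ← map_smul, Finsupp.smul_single, smul_eq_mul, mul_one]
    show Finsupp.linearCombination (ZMod 2) v (s n).1 + _ = 0
    rw [h3, hφ _ hsn]
    exact CharTwo.add_self_eq_zero _
  · refine ⟨⟨(v, fun _ => 0), countable_range_const'⟩, ?_, hv⟩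
    intro h
    exact absurd h hD


/-! ### The topology -/

/-- Evaluation of all characters. -/
noncomputable def ev (f : I → Y I) : G I →+ (I → ZMod 2) where
  toFun g := fun i => chi (f i).1 g
  map_zero' := by funext i; simp
  map_add' a b := by funext i; simp

/-- The group topology defined by a family of characters. -/
noncomputable abbrev top (f : I → Y I) : TopologicalSpace (G I) :=
  TopologicalSpace.induced (ev f) inferInstance

theorem isTopologicalAddGroup (f : I → Y I) :
    @IsTopologicalAddGroup (G I) (top f) _ := topologicalAddGroup_induced (ev f)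

theorem continuous_chi (f : I → Y I) (i : I) :
    @Continuous _ _ (top f) _ (fun g => chi (f i).1 g) := by
  let := top f
  have h1 : Continuous (ev f) := continuous_induced_dom
  exact (continuous_apply i).comp h1

theorem t2Space (f : I → Y I) (h : ∀ g : G I, g ≠ 0 → ∃ i, chi (f i).1 g ≠ 0) :
    @T2Space (G I) (top f) := by
  let := top f
  refine T2Space.of_injective_continuous (f := ev f) ?_ continuous_induced_dom
  rw [injective_iff_map_eq_zero]
  intro a ha
  by_contra hne
  obtain ⟨i, hi⟩ := h a hne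
  exact hi (congrFun ha i)

/-- density criterion in the square -/
theorem dense_square (f : I → Y I) (D : Set (G I × G I))
    (hD : ∀ (F : Finset I) (g h : G I), ∃ d ∈ D, ∀ i ∈ F, chi (f i).1 d.1 = chi (f i).1 g ∧
      chi (f i).1 d.2 = chi (f i).1 h) :
    @Dense (G I × G I) (@instTopologicalSpaceProd _ _ (top f) (top f)) D := by
  classical
  let := top f
  rintro ⟨g, h⟩
  rw [mem_closure_iff]
  intro O hO hgh
  rw [isOpen_prod_iff] at hO
  obtain ⟨u, v, hu, hv, hgu, hhv, huv⟩ := hO g h hgh
  obtain ⟨u', hu', rfl⟩ := isOpen_induced_iff.mp hu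
  obtain ⟨v', hv', rfl⟩ := isOpen_induced_iff.mp hv
  obtain ⟨F, a, ha, haF⟩ := isOpen_pi_iff.mp hu' (ev f g) hgu
  obtain ⟨F', a', ha', haF'⟩ := isOpen_pi_iff.mp hv' (ev f h) hhv
  obtain ⟨d, hdD, hd⟩ := hD (F ∪ F') g h
  refine ⟨d, huv ⟨?_, ?_⟩, hdD⟩
  · apply haF
    intro i hi
    have h1 := (hd i (Finset.mem_union_left _ hi)).1
    show chi (f i).1 d.1 ∈ a i
    rw [h1]
    exact (ha i hi).2
  · apply haF'
    intro i hi
    have h1 := (hd i (Finset.mem_union_right _ hi)).2
    show chi (f i).1 d.2 ∈ a' i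
    rw [h1]
    exact (ha' i hi).2

/-! ### The dense subgroups of the square -/

/-- embedding of a block -/
noncomputable def emb (j : I × Fin 3) : (ℕ →₀ ZMod 2) →ₗ[ZMod 2] (((I × Fin 3) × ℕ) →₀ ZMod 2) :=
  Finsupp.lmapDomain (ZMod 2) (ZMod 2) (fun n => (j, n))

theorem emb_single (j : I × Fin 3) (n : ℕ) (c : ZMod 2) :
    emb j (Finsupp.single n c) = Finsupp.single (j, n) c := by
  simp [emb]

theorem emb_same (j : I × Fin 3) (α : ℕ →₀ ZMod 2) (n : ℕ) : emb j α (j, n) = α n := by
  show Finsupp.mapDomain (fun n => (j, n)) α (j, n) = α n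
  exact Finsupp.mapDomain_apply (f := fun n => (j, n)) (fun a b h => (Prod.ext_iff.mp h).2) α n

theorem emb_ne (j j' : I × Fin 3) (h : j ≠ j') (α : ℕ →₀ ZMod 2) (n : ℕ) :
    emb j α (j', n) = 0 := by
  show Finsupp.mapDomain (fun n => (j, n)) α (j', n) = 0
  apply Finsupp.mapDomain_of_notMem_range
  rintro ⟨m, hm⟩
  exact h (Prod.ext_iff.mp hm).1

/-- The parametrisation of the dense subgroup attached to `ν`. -/
noncomputable def par (ν : I) :
    ((ℕ →₀ ZMod 2) × (ℕ →₀ ZMod 2) × (ℕ →₀ ZMod 2)) →ₗ[ZMod 2] (G I × G I) where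
  toFun t := ((t.1 + t.2.2, emb (ν, 0) t.2.1 + emb (ν, 2) t.2.2),
    (t.2.1, emb (ν, 1) t.1 + emb (ν, 2) t.2.2))
  map_add' a b := by
    simp only [Prod.fst_add, Prod.snd_add, map_add, Prod.mk_add_mk]
    refine Prod.ext (Prod.ext ?_ ?_) (Prod.ext ?_ ?_)
    · show _ = _
      simp only
      abel
    · simp only
      abel
    · rfl
    · simp only
      abel
  map_smul' c a := by
    simp only [Prod.smul_fst, Prod.smul_snd, map_smul, RingHom.id_apply, Prod.smul_mk, smul_add]

theorem par_apply (ν : I) (t : (ℕ →₀ ZMod 2) × (ℕ →₀ ZMod 2) × (ℕ →₀ ZMod 2)) :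
    par ν t = ((t.1 + t.2.2, emb (ν, 0) t.2.1 + emb (ν, 2) t.2.2),
    (t.2.1, emb (ν, 1) t.1 + emb (ν, 2) t.2.2)) := rfl

/-- pairing of the generators -/
theorem chi_gen (p : X × (I × Fin 3 → X)) (j : I × Fin 3) (n : ℕ) :
    chi p (Finsupp.single n 1, 0) = p.1 n ∧ chi p (0, emb j (Finsupp.single n 1)) = p.2 j n := by
  constructor
  · rw [chi_apply]; simp
  · rw [chi_apply, emb_single]; simp

theorem trivial_of_zero (ν : I) (t : (ℕ →₀ ZMod 2) × (ℕ →₀ ZMod 2) × (ℕ →₀ ZMod 2))
    (h : ∀ τ n, (par ν t).1.2 ((ν, τ), n) = 0 ∧ (par ν t).2.2 ((ν, τ), n) = 0) : t = 0 := by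
  have h0 : ∀ n, t.2.1 n = 0 := by
    intro n
    have := (h 0 n).1
    rw [par_apply] at this
    simp only [Finsupp.add_apply] at this
    rwa [emb_same, emb_ne (ν, 2) (ν, 0) (by simp), add_zero] at this
  have h2 : ∀ n, t.2.2 n = 0 := by
    intro n
    have := (h 2 n).1
    rw [par_apply] at this
    simp only [Finsupp.add_apply] at this
    rwa [emb_same, emb_ne (ν, 0) (ν, 2) (by simp), zero_add] at this
  have h1 : ∀ n, t.1 n = 0 := by
    intro n
    have := (h 1 n).2
    rw [par_apply] at this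
    simp only [Finsupp.add_apply] at this
    rwa [emb_same, emb_ne (ν, 2) (ν, 1) (by simp), add_zero] at this
  exact Prod.ext (Finsupp.ext h1) (Prod.ext (Finsupp.ext h0) (Finsupp.ext h2))

section dense

variable [LinearOrder I]

/-- leading term argument -/
theorem leading {F : Finset I} {m : I} (hm : m ∈ F) (A : I → X) (W : Submodule (ZMod 2) X)
    (hA : ∀ i ∈ F, i ≠ m → A i ∈ W) (hsum : ∑ i ∈ F, A i = 0) : A m ∈ W := by
  classical
  rw [← Finset.add_sum_erase F A hm] at hsum
  have h1 : ∑ i ∈ F.erase m, A i ∈ W :=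
    Submodule.sum_mem W (fun i hi => hA i (Finset.mem_of_mem_erase hi) (Finset.ne_of_mem_erase hi))
  have h2 : A m = - ∑ i ∈ F.erase m, A i := eq_neg_of_add_eq_zero_left hsum
  rw [h2]
  exact W.neg_mem h1

theorem coeff_zero (f : I → Y I)
    (hf : ∀ η, (f η).1.1 ∉ Submodule.span (ZMod 2) (prevSet f η)) (ν : I) (F : Finset I)
    (a a' : I → ZMod 2)
    (h1 : ∑ i ∈ F, (a i • (f i).1.1 + a' i • (f i).1.2 (ν, 1)) = 0)
    (h0 : ∑ i ∈ F, (a i • (f i).1.2 (ν, 0) + a' i • (f i).1.1) = 0)
    (h2 : ∑ i ∈ F, (a i • ((f i).1.1 + (f i).1.2 (ν, 2)) + a' i • (f i).1.2 (ν, 2)) = 0) :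
    ∀ i ∈ F, a i = 0 ∧ a' i = 0 := by
  classical
  by_contra hcon
  push Not at hcon
  obtain ⟨i0, hi0, hi0'⟩ := hcon
  let F' := F.filter (fun i => ¬ (a i = 0 ∧ a' i = 0))
  have hne : F'.Nonempty := ⟨i0, by
    simp only [F', Finset.mem_filter]
    exact ⟨hi0, fun h => hi0' h.1 h.2⟩⟩
  let m := F'.max' hne
  have hmF' : m ∈ F' := F'.max'_mem hne
  have hm : m ∈ F := (Finset.mem_filter.mp hmF').1
  have hmm : ¬ (a m = 0 ∧ a' m = 0) := (Finset.mem_filter.mp hmF').2
  have hbig : ∀ i ∈ F, i ≠ m → (i < m ∨ (a i = 0 ∧ a' i = 0)) := by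
    intro i hi him
    by_cases hz : a i = 0 ∧ a' i = 0
    · right; exact hz
    · left
      have : i ∈ F' := Finset.mem_filter.mpr ⟨hi, hz⟩
      exact lt_of_le_of_ne (F'.le_max' i this) him
  let W := Submodule.span (ZMod 2) (prevSet f m)
  have hx : ∀ i, i < m → (f i).1.1 ∈ W := fun i hi =>
    Submodule.subset_span ⟨i, hi, Or.inl rfl⟩
  have hy : ∀ i, i < m → ∀ j, (f i).1.2 j ∈ W := fun i hi j =>
    Submodule.subset_span ⟨i, hi, Or.inr ⟨j, rfl⟩⟩
  have e1 := leading hm (fun i => a i • (f i).1.1 + a' i • (f i).1.2 (ν, 1)) W (by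
    intro i hi him
    rcases hbig i hi him with h | h
    · exact W.add_mem (W.smul_mem _ (hx i h)) (W.smul_mem _ (hy i h _))
    · simp only [h.1, h.2, zero_smul, add_zero]; exact W.zero_mem) h1
  have e0 := leading hm (fun i => a i • (f i).1.2 (ν, 0) + a' i • (f i).1.1) W (by
    intro i hi him
    rcases hbig i hi him with h | h
    · exact W.add_mem (W.smul_mem _ (hy i h _)) (W.smul_mem _ (hx i h))
    · simp only [h.1, h.2, zero_smul, add_zero]; exact W.zero_mem) h0
  have e2 := leading hm (fun i => a i • ((f i).1.1 + (f i).1.2 (ν, 2)) + a' i • (f i).1.2 (ν, 2)) W (by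
    intro i hi him
    rcases hbig i hi him with h | h
    · exact W.add_mem (W.smul_mem _ (W.add_mem (hx i h) (hy i h _))) (W.smul_mem _ (hy i h _))
    · simp only [h.1, h.2, zero_smul, add_zero]; exact W.zero_mem) h2
  rcases zmod2_cases (a m) with ha | ha <;> rcases zmod2_cases (a' m) with ha' | ha'
  · exact hmm ⟨ha, ha'⟩
  · simp only [ha, ha', zero_smul, zero_add, one_smul] at e0
    exact hf m e0
  · simp only [ha, ha', zero_smul, add_zero, one_smul] at e1
    exact hf m e1
  · simp only [ha, ha', one_smul] at e2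
    have : (f m).1.1 + (f m).1.2 (ν, 2) + (f m).1.2 (ν, 2) = (f m).1.1 := by
      rw [add_assoc]
      have : (f m).1.2 (ν, 2) + (f m).1.2 (ν, 2) = 0 := by
        funext n; exact CharTwo.add_self_eq_zero _
      rw [this, add_zero]
    rw [this] at e2
    exact hf m e2

theorem dense_par (f : I → Y I)
    (hf : ∀ η, (f η).1.1 ∉ Submodule.span (ZMod 2) (prevSet f η)) (ν : I) (F : Finset I)
    (g h : G I) : ∃ d ∈ Set.range (par ν), ∀ i ∈ F, chi (f i).1 d.1 = chi (f i).1 g ∧
      chi (f i).1 d.2 = chi (f i).1 h := by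
  classical
  -- linear evaluation on F
  let E : (G I × G I) →ₗ[ZMod 2] ((F → ZMod 2) × (F → ZMod 2)) :=
    { toFun := fun d => (fun i => chi (f i.1).1 d.1, fun i => chi (f i.1).1 d.2)
      map_add' := by
        intro a b
        refine Prod.ext ?_ ?_
        · funext i; simp
        · funext i; simp
      map_smul' := by
        intro c a
        refine Prod.ext ?_ ?_
        · funext i; simp
        · funext i; simp }
  have htop : LinearMap.range (E.comp (par ν)) = ⊤ := by
    by_contra hne
    obtain ⟨φ, hφ0, hφ⟩ := Submodule.exists_le_ker_of_lt_top _ (lt_top_iff_ne_top.mpr hne)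
    apply hφ0
    let a : I → ZMod 2 := fun i => if hi : i ∈ F then φ (Pi.single ⟨i, hi⟩ 1, 0) else 0
    let a' : I → ZMod 2 := fun i => if hi : i ∈ F then φ (0, Pi.single ⟨i, hi⟩ 1) else 0
    have hφeq : ∀ c c' : F → ZMod 2, φ (c, c') = ∑ i : F, (c i * a i.1 + c' i * a' i.1) := by
      intro c c'
      have hc : c = ∑ i : F, c i • (Pi.single i 1 : F → ZMod 2) := by
        funext k
        rw [Finset.sum_apply, Finset.sum_eq_single k]
        · simp
        · intro b _ hb
          simp [Pi.single_eq_of_ne (Ne.symm hb)]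
        · simp
      have hc' : c' = ∑ i : F, c' i • (Pi.single i 1 : F → ZMod 2) := by
        funext k
        rw [Finset.sum_apply, Finset.sum_eq_single k]
        · simp
        · intro b _ hb
          simp [Pi.single_eq_of_ne (Ne.symm hb)]
        · simp
      have hsplit : (c, c') = ∑ i : F, (c i • ((Pi.single i 1 : F → ZMod 2), (0 : F → ZMod 2)) +
          c' i • ((0 : F → ZMod 2), (Pi.single i 1 : F → ZMod 2))) := by
        refine Prod.ext ?_ ?_
        · rw [Prod.fst_sum]
          simp only [Prod.fst_add, Prod.smul_fst, smul_zero, add_zero]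
          exact hc
        · rw [Prod.snd_sum]
          simp only [Prod.snd_add, Prod.smul_snd, smul_zero, zero_add]
          exact hc'
      rw [hsplit, map_sum]
      refine Finset.sum_congr rfl ?_
      intro i _
      rw [map_add, map_smul, map_smul]
      simp only [a, a', i.2, dif_pos, smul_eq_mul, Subtype.coe_eta]
    have hval : ∀ t, ∑ i ∈ F, (chi (f i).1 (par ν t).1 * a i + chi (f i).1 (par ν t).2 * a' i) = 0 := by
      intro t
      have h1 : φ (E (par ν t)) = 0 := hφ ⟨t, rfl⟩
      have h2 : E (par ν t) = (fun i => chi (f i.1).1 (par ν t).1, fun i => chi (f i.1).1 (par ν t).2) := rfl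
      rw [h2, hφeq] at h1
      rw [← Finset.sum_coe_sort F]
      exact h1
    have hall := coeff_zero f hf ν F a a' ?_ ?_ ?_
    · apply LinearMap.ext
      rintro ⟨c, c'⟩
      rw [hφeq]
      refine Finset.sum_eq_zero ?_
      intro i _
      rw [(hall i.1 i.2).1, (hall i.1 i.2).2, mul_zero, mul_zero, add_zero]
    · funext n
      have := hval (Finsupp.single n 1, 0, 0)
      rw [par_apply] at this
      simp only [map_zero, add_zero] at this
      rw [Finset.sum_apply]
      refine Eq.trans ?_ this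
      refine Finset.sum_congr rfl ?_
      intro i _
      rw [(chi_gen (f i).1 (ν, 1) n).1, (chi_gen (f i).1 (ν, 1) n).2]
      simp only [Pi.add_apply, Pi.smul_apply, smul_eq_mul]
      ring
    · funext n
      have := hval (0, Finsupp.single n 1, 0)
      rw [par_apply] at this
      simp only [map_zero, add_zero] at this
      rw [Finset.sum_apply]
      refine Eq.trans ?_ this
      refine Finset.sum_congr rfl ?_
      intro i _
      rw [(chi_gen (f i).1 (ν, 0) n).1, (chi_gen (f i).1 (ν, 0) n).2]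
      simp only [Pi.add_apply, Pi.smul_apply, smul_eq_mul]
      ring
    · funext n
      have := hval (0, 0, Finsupp.single n 1)
      rw [par_apply] at this
      simp only [map_zero, zero_add] at this
      rw [Finset.sum_apply]
      refine Eq.trans ?_ this
      refine Finset.sum_congr rfl ?_
      intro i _
      have hs : ((Finsupp.single n 1, emb (ν, 2) (Finsupp.single n 1)) : G I) =
        (Finsupp.single n 1, 0) + (0, emb (ν, 2) (Finsupp.single n 1)) := by
        simp
      rw [hs, map_add, (chi_gen (f i).1 (ν, 2) n).1, (chi_gen (f i).1 (ν, 2) n).2]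
      simp only [Pi.add_apply, Pi.smul_apply, smul_eq_mul]
      ring
  have hmem : E (g, h) ∈ LinearMap.range (E.comp (par ν)) := by rw [htop]; trivial
  obtain ⟨t, ht⟩ := hmem
  refine ⟨par ν t, ⟨t, rfl⟩, ?_⟩
  intro i hi
  have h1 := congrFun (Prod.ext_iff.mp ht).1 ⟨i, hi⟩
  have h2 := congrFun (Prod.ext_iff.mp ht).2 ⟨i, hi⟩
  exact ⟨h1, h2⟩

end dense

/-! ### Main result -/

theorem exists_free_block (hI : #I = 𝔠) (S : AddSubgroup (G I × G I)) (hS : #S < 𝔠) :
    ∃ ν : I, ∀ s ∈ S, ∀ (τ : Fin 3) (n : ℕ), s.1.2 ((ν, τ), n) = 0 ∧ s.2.2 ((ν, τ), n) = 0 := by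
  classical
  by_contra hcon
  push Not at hcon
  have hsub : (Set.univ : Set I) ⊆ ⋃ s : S, (((s.1.1.2.support.image (fun b => b.1.1)) ∪
      (s.1.2.2.support.image (fun b => b.1.1)) : Finset I) : Set I) := by
    intro ν _
    obtain ⟨s, hs, τ, n, h⟩ := hcon ν
    rw [mem_iUnion]
    refine ⟨⟨s, hs⟩, ?_⟩
    by_cases h1 : s.1.2 ((ν, τ), n) = 0
    · have h2 := h h1
      rw [Finset.mem_coe, Finset.mem_union]
      right
      rw [Finset.mem_image]
      exact ⟨((ν, τ), n), by simpa using h2, rfl⟩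
    · rw [Finset.mem_coe, Finset.mem_union]
      left
      rw [Finset.mem_image]
      exact ⟨((ν, τ), n), by simpa using h1, rfl⟩
  have h1 := Cardinal.mk_le_mk_of_subset hsub
  rw [Cardinal.mk_univ, hI] at h1
  refine absurd (h1.trans (Cardinal.mk_iUnion_le _)) (not_le.mpr ?_)
  refine Cardinal.mul_lt_of_lt aleph0_lt_continuum.le hS ?_
  refine lt_of_le_of_lt (ciSup_le' ?_) aleph0_lt_continuum
  intro j
  rw [Cardinal.le_aleph0_iff_set_countable]
  exact Finset.countable_toSet _

theorem mk_G (hI : #I = 𝔠) : #(G I) = 𝔠 := by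
  have h1 : #((I × Fin 3) × ℕ) = 𝔠 := by
    rw [Cardinal.mk_prod, Cardinal.mk_prod]
    simp [hI]
  have hinf : Infinite ((I × Fin 3) × ℕ) := by
    rw [Cardinal.infinite_iff, h1]
    exact aleph0_le_continuum
  have h2 : #(ZMod 2) ≤ ℵ₀ := (Cardinal.lt_aleph0_of_finite _).le
  rw [Cardinal.mk_prod, Cardinal.lift_id, Cardinal.lift_id, Cardinal.mk_finsupp_of_infinite,
    Cardinal.mk_finsupp_of_infinite, h1, Cardinal.mk_nat, max_eq_left h2,
    max_eq_left (h2.trans aleph0_le_continuum)]
  simp

theorem exists_tasks (hI : #I = 𝔠) : Nonempty (I ≃ ((ℕ → G I) ⊕ G I)) := by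
  rw [← Cardinal.eq, hI, Cardinal.mk_sum, Cardinal.lift_id, Cardinal.lift_id, mk_G hI,
    ← Cardinal.power_def, mk_G hI]
  simp

section main

variable [LinearOrder I] [WellFoundedLT I]

theorem main (hI : #I = 𝔠) (hlt : ∀ i : I, #(Iio i) < 𝔠) :
    ∃ f : I → Y I, (∀ η, (f η).1.1 ∉ Submodule.span (ZMod 2) (prevSet f η)) ∧
      (∀ g : G I, g ≠ 0 → ∃ i, chi (f i).1 g ≠ 0) ∧
      (∀ s : ℕ → G I, (∀ g ∈ Submodule.span (ZMod 2) (Set.range s), g.2 = 0 → g = 0) →
        ∃ i, ∀ n, chi (f i).1 (s n) = 0) := by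
  obtain ⟨e⟩ := exists_tasks hI
  let R : I → Set (Y I) := fun i => Sum.elim (fun s => RSeq s) (fun g => RPoint g) (e i)
  obtain ⟨f, hf⟩ := exists_seq hlt R (by
    intro η W hW
    show ∃ p ∈ Sum.elim (fun s => RSeq s) (fun g => RPoint g) (e η), p.1.1 ∉ W
    rcases e η with s | g
    · exact exists_seqTask s W hW
    · exact exists_point g W hW)
  refine ⟨f, fun η => (hf η).2, ?_, ?_⟩
  · intro g hg
    have h1 := (hf (e.symm (Sum.inr g))).1
    simp only [R, Equiv.apply_symm_apply, Sum.elim_inr] at h1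
    exact ⟨_, h1 hg⟩
  · intro s hs
    have h1 := (hf (e.symm (Sum.inl s))).1
    simp only [R, Equiv.apply_symm_apply, Sum.elim_inl] at h1
    exact ⟨_, h1 hs⟩

end main

theorem result : ∃ (A : Type) (_ : AddCommGroup A) (_ : TopologicalSpace A),
    IsTopologicalAddGroup A ∧ T2Space A ∧ (∀ a : A, a + a = 0) ∧ #A = 𝔠 ∧
      DIndependent (A × A) ∧ ¬ DIndependent A := by
  classical
  let J : Type := (Cardinal.continuum.{0}).ord.ToType
  have hI : #J = 𝔠 := Cardinal.mk_ord_toType _
  have hlt : ∀ i : J, #(Iio i) < 𝔠 := by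
    intro i
    have := Cardinal.mk_Iio_lt (α := J) i (by simp [J])
    rwa [hI] at this
  obtain ⟨f, hf, hpt, hseq⟩ := main hI hlt
  have hJ : Nonempty J := by
    rw [← Cardinal.mk_ne_zero_iff, hI]
    exact continuum_ne_zero
  let i0 : J := Classical.choice hJ
  refine ⟨G J, inferInstance, top f, isTopologicalAddGroup f, t2Space f hpt, ?_, mk_G hI, ?_, ?_⟩
  · intro a
    refine Prod.ext ?_ ?_
    · ext n; exact CharTwo.add_self_eq_zero _
    · ext n; exact CharTwo.add_self_eq_zero _
  · let := top f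
    refine ⟨inferInstance, ?_⟩
    intro S hS
    obtain ⟨ν, hν⟩ := exists_free_block hI S hS
    refine ⟨(LinearMap.range (par ν)).toAddSubgroup, ?_, ?_, ?_⟩
    · show (Set.range (par ν)).Countable
      exact Set.countable_range _
    · show Dense (Set.range (par ν))
      exact dense_square f _ (fun F g h => dense_par f hf ν F g h)
    · rw [eq_bot_iff]
      rintro s ⟨hs, ⟨t, rfl⟩⟩
      have := trivial_of_zero ν t (fun τ n => hν _ hs τ n)
      rw [this]
      simp
  · let := top f
    rintro ⟨_, h⟩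
    let S : AddSubgroup (G J) :=
      { carrier := {g | g.2 = 0}
        zero_mem' := rfl
        add_mem' := by
          intro a b ha hb
          show a.2 + b.2 = 0
          rw [show a.2 = 0 from ha, show b.2 = 0 from hb, add_zero]
        neg_mem' := by
          intro a ha
          show - a.2 = 0
          rw [show a.2 = 0 from ha, neg_zero] }
    have hS : #S < 𝔠 := by
      refine lt_of_le_of_lt ?_ aleph0_lt_continuum
      have hinj : Function.Injective (fun s : S => (s.1.1 : ℕ →₀ ZMod 2)) := by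
        intro a b hab
        apply Subtype.ext
        exact Prod.ext hab ((show a.1.2 = 0 from a.2).trans (show b.1.2 = 0 from b.2).symm)
      refine (Cardinal.mk_le_of_injective hinj).trans ?_
      exact Cardinal.mk_le_aleph0
    obtain ⟨D, hDc, hDd, hSD⟩ := h S hS
    obtain ⟨s, hs⟩ := hDc.exists_eq_range ⟨0, D.zero_mem⟩
    have hspan : ∀ g ∈ Submodule.span (ZMod 2) (Set.range s), g ∈ D := by
      intro g hg
      induction hg using Submodule.span_induction with
      | mem x hx => rw [← hs] at hx; exact hx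
      | zero => exact D.zero_mem
      | add x y _ _ hx hy => exact D.add_mem hx hy
      | smul c x _ hx =>
        rcases zmod2_cases c with hc | hc
        · rw [hc, zero_smul]; exact D.zero_mem
        · rw [hc, one_smul]; exact hx
    obtain ⟨i, hi⟩ := hseq s (by
      intro g hg hg2
      have : g ∈ S ⊓ D := ⟨hg2, hspan g hg⟩
      rw [hSD] at this
      exact this)
    have hcl : IsClosed {g : G J | chi (f i).1 g = 0} :=
      isClosed_singleton.preimage (continuous_chi f i)
    have hsub : (D : Set (G J)) ⊆ {g : G J | chi (f i).1 g = 0} := by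
      rw [hs]
      rintro _ ⟨n, rfl⟩
      exact hi n
    have hall : ∀ g : G J, chi (f i).1 g = 0 := by
      intro g
      have h1 := closure_minimal hsub hcl
      rw [hDd.closure_eq] at h1
      exact h1 trivial
    apply hf i
    have hz : (f i).1.1 = 0 := by
      funext n
      rw [← (chi_gen (f i).1 (i0, 0) n).1]
      exact hall _
    rw [hz]
    exact Submodule.zero_mem _

end Pool.Agent.Results.MP_23f360_gt.SquareOnly
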